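import Pool.Agent.W841.PK.Api

/-! PK-NEG: exact one-sided drift for a planted vertex. -/

set_option autoImplicit false

namespace Pool.Agent.W340.PK

open W841.PK Finset
open scoped Classical

theorem lt_of_NP {n : ℕ} (hb : S_Basic) {S : Finset (Fin n)} {ρ : Rule n} (hρ : IsRule ρ) {t : ℕ}
    {G : SimpleGraph (Fin n)} (h : NP S ρ t G) : t < n := by
  by_contra hcon
  have h1 := (hb n S ρ n G hρ).1 le_rfl
  rw [Nat.sub_self, card_eq_zero] at h1
  have h2 := RR_anti S ρ G (not_lt.1 hcon) h.2
  rw [h1] at h2
  simp at h2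

theorem negdrift (hb : S_Basic) (_hm : S_MeasP) (hs : S_Swap) (h1 : S_SW1) : S_NegDrift := by
  intro n S ρ t v φ hρ hv hφ hM
  have key := h1 n S ρ t (fun G _ => φ G * (if v ∈ RR S ρ t G then 1 else 0))
    (fun _ a => if a = v then 1 else 0)
    (fun G w2 x y hsw => by
      have h2 := (hs n S ρ t G w2 x y hsw).1
      show φ _ * _ = φ _ * _
      rw [← hM _ _ h2, ← (h2 t le_rfl).1])
    (fun a G G' _ => rfl)
  have hle : ∑ G, (if NP S ρ t G ∧ v ∈ RR S ρ t G then
      φ G * ((rr S ρ t G : ℝ) * ee G v (ww S ρ t G) - Xn S ρ t G v) else 0) ≤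
      2 * ∑ G, (if NP S ρ t G then ∑ w2 ∈ (NN S ρ t G).erase (ww S ρ t G),
      (φ G * (if v ∈ RR S ρ t G then 1 else 0)) *
        Dd S ρ t G (fun a => if a = v then 1 else 0) w2 else 0) := by
    rw [mul_sum]
    refine sum_le_sum fun G _ => ?_
    by_cases hNP : NP S ρ t G
    · by_cases hvR : v ∈ RR S ρ t G
      · rw [if_pos ⟨hNP, hvR⟩, if_pos hNP, if_pos hvR, mul_one, ← mul_sum]
        have htn := lt_of_NP hb hρ hNP
        obtain ⟨hwN, -, -, -, hmin, -⟩ := (hb n S ρ t G hρ).2.2.1 htn hNP.1
        have hwv : ww S ρ t G ≠ v := fun h => hNP.1 (h ▸ hv)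
        have hpt : ∀ w2 ∈ (NN S ρ t G).erase (ww S ρ t G),
            (ee G v (ww S ρ t G) - ee G v w2) / 2 ≤
              Dd S ρ t G (fun a => if a = v then 1 else 0) w2 := by
          intro w2 hw2
          rw [mem_erase] at hw2
          have hw2S : w2 ∉ S := (mem_sdiff.1 hw2.2).2
          have hw2v : v ≠ w2 := fun h => hw2S (h ▸ hv)
          have hq : qh S ρ t G w2 ≤ 0 := by
            unfold qh
            apply div_nonpos_of_nonpos_of_nonneg
            · linarith [hmin w2 hw2.2]
            · unfold Dl; positivity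
          have hD : Dd S ρ t G (fun a => if a = v then 1 else 0) w2 =
              if v ∈ Aw S ρ t G w2 ∪ Bw S ρ t G w2 then
                (ee G v (ww S ρ t G) - qh S ρ t G w2) else 0 := by
            unfold Dd
            simp only [ite_mul, one_mul, zero_mul]
            rw [sum_ite_eq']
          rw [hD]
          have hmem : v ∈ Aw S ρ t G w2 ∪ Bw S ρ t G w2 ↔
              (G.Adj v (ww S ρ t G) ∧ ¬ G.Adj v w2) ∨ (G.Adj v w2 ∧ ¬ G.Adj v (ww S ρ t G)) := by
            simp only [Aw, Bw, mem_union, mem_filter]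
            constructor
            · rintro (⟨-, -, -, h⟩ | ⟨-, -, -, h⟩)
              · exact Or.inl h
              · exact Or.inr h
            · rintro (h | h)
              · exact Or.inl ⟨hvR, hwv.symm, hw2v, h⟩
              · exact Or.inr ⟨hvR, hwv.symm, hw2v, h⟩
          by_cases ha : G.Adj v (ww S ρ t G) <;> by_cases hb' : G.Adj v w2 <;>
            simp only [hmem, ha, hb', ee, hwv.symm, hw2v, if_true, if_false, not_true_eq_false,
              not_false_eq_true, and_true, and_false, or_false, or_true, and_self,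
              or_self] <;> linarith
        have hsum := sum_le_sum hpt
        have hcard : (((NN S ρ t G).erase (ww S ρ t G)).card : ℝ) = (rr S ρ t G : ℝ) - 1 := by
          rw [card_erase_of_mem hwN]
          have : 1 ≤ (NN S ρ t G).card := card_pos.2 ⟨_, hwN⟩
          unfold rr
          push_cast [Nat.cast_sub this]
          ring
        have hL : ∑ w2 ∈ (NN S ρ t G).erase (ww S ρ t G),
            (ee G v (ww S ρ t G) - ee G v w2) / 2 =
            ((rr S ρ t G : ℝ) * ee G v (ww S ρ t G) - Xn S ρ t G v) / 2 := by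
          rw [← sum_div, sum_sub_distrib, sum_const, nsmul_eq_mul, hcard, sum_erase_eq_sub hwN]
          unfold Xn
          ring
        rw [hL] at hsum
        have h3 := mul_le_mul_of_nonneg_left hsum (hφ G)
        linarith
      · rw [if_neg (fun h => hvR h.2), if_neg hvR]
        simp
    · rw [if_neg (fun h => hNP h.1), if_neg hNP]; simp
  rw [key, mul_zero] at hle
  exact hle

end Pool.Agent.W340.PK
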