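import Pool.Agent.W841.PK.Num

/-! PK-REGRID: passing to a coarser grid. -/

set_option autoImplicit false

namespace Pool.Agent.W340.PK.Regrid

open W841.PK

theorem regrid (_h : S_Pl) : S_Regrid := by
  intro δ r A hδ hr hA
  have hr1 : (1 : ℝ) ≤ (r : ℝ) := by exact_mod_cast hr
  have hr0 : (0 : ℝ) < (r : ℝ) := by linarith
  constructor
  · intro y
    have hy : y / ((r : ℝ) * δ) = y / δ / r := by rw [mul_comm, div_div]
    unfold pl
    rw [hy]
    set x := y / δ with hx
    set l := ⌊x / r⌋ with hl
    set m := ⌊x⌋ with hm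
    have h1 : (l : ℝ) ≤ x / r := Int.floor_le _
    have h2 : x / r < l + 1 := Int.lt_floor_add_one _
    have h3 : (m : ℝ) ≤ x := Int.floor_le _
    have h4 : x < m + 1 := Int.lt_floor_add_one _
    rw [le_div_iff₀ hr0] at h1
    rw [div_lt_iff₀ hr0] at h2
    have e1 : (r : ℤ) * (l + 1) - ((r : ℤ) - 1) = r * l + 1 := by ring
    have hX : A (r * l) ≤ A (r * l - (r - 1)) := hA (by have : (1 : ℤ) ≤ r := by exact_mod_cast hr
                                                        linarith)
    have hX' : A (r * l + 1) ≤ A (r * l) := hA (by linarith)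
    have hmm : A (m + 1) ≤ A m := hA (by linarith)
    have hfl : 0 ≤ x / r - l ∧ x / r - l ≤ 1 := by
      constructor
      · rw [sub_nonneg, le_div_iff₀ hr0]; exact h1
      · rw [sub_le_iff_le_add, div_le_iff₀ hr0]; linarith
    simp only [e1]
    by_cases ht : x < r * l + 1
    · have hmr : m = r * l := by
        rw [hm, Int.floor_eq_iff]
        push_cast
        constructor <;> linarith
      rw [hmr] at hmm h3 ⊢
      push_cast at h3 ⊢
      have h5 : x / r - l ≤ x - r * l := by
        have h6 : x / r - l = (x - r * l) / r := by field_simp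
        rw [h6]
        exact div_le_self (by linarith) hr1
      nlinarith [hfl.1, hfl.2]
    · have hmr : r * l + 1 ≤ m := by
        rw [hm, Int.le_floor]; push_cast; linarith
      have h5 : A m ≤ A (r * l + 1) := hA hmr
      nlinarith [hfl.1, hfl.2]
  · intro y
    have hy : y / ((r : ℝ) * δ) = y / δ / r := by rw [mul_comm, div_div]
    unfold pl
    rw [hy]
    set x := y / δ with hx
    set l := ⌊x / r⌋ with hl
    set m := ⌊x⌋ with hm
    have h1 : (l : ℝ) ≤ x / r := Int.floor_le _
    have h2 : x / r < l + 1 := Int.lt_floor_add_one _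
    have h3 : (m : ℝ) ≤ x := Int.floor_le _
    have h4 : x < m + 1 := Int.lt_floor_add_one _
    rw [le_div_iff₀ hr0] at h1
    rw [div_lt_iff₀ hr0] at h2
    have hri : (1 : ℤ) ≤ r := by exact_mod_cast hr
    have hX' : A (r * (l + 1) + (r - 1)) ≤ A (r * l + r) := hA (by nlinarith)
    have hX : A (r * l + r) ≤ A (r * l + (r - 1)) := hA (by linarith)
    have hmm : A (m + 1) ≤ A m := hA (by linarith)
    have hfl : 0 ≤ x / r - l ∧ x / r - l ≤ 1 := by
      constructor
      · rw [sub_nonneg, le_div_iff₀ hr0]; exact h1
      · rw [sub_le_iff_le_add, div_le_iff₀ hr0]; linarith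
    by_cases ht : x < r * l + (r - 1)
    · have hmr : m + 1 ≤ r * l + (r - 1) := by
        have : (m : ℝ) < r * l + (r - 1) := lt_of_le_of_lt h3 ht
        have h6 : m < r * l + (r - 1) := by exact_mod_cast this
        linarith
      have h5 : A (r * l + (r - 1)) ≤ A (m + 1) := hA hmr
      nlinarith [hfl.1, hfl.2]
    · have hmr : m = r * l + (r - 1) := by
        rw [hm, Int.floor_eq_iff]
        push_cast
        constructor <;> linarith
      have e1 : (r : ℤ) * l + (r - 1) + 1 = r * l + r := by ring
      rw [hmr] at hmm ⊢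
      rw [e1] at hmm ⊢
      push_cast
      have h6 : x / r - l = (x - r * l) / r := by field_simp
      have h7 : 0 ≤ (r * l + r - x) * (1 - 1 / r) := by
        apply mul_nonneg (by linarith)
        rw [sub_nonneg, div_le_one hr0]; exact hr1
      have h8 : (r * l + r - x) * (1 - 1 / r) = (x / r - l) - (x - (r * l + (r - 1))) := by
        field_simp; ring
      rw [h8] at h7
      nlinarith [hfl.1, hfl.2]

end Pool.Agent.W340.PK.Regrid
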