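import Pool.Agent.W841.PK.Stm2

/-! PK-T3: the correlation term of the switching statistics. -/

set_option autoImplicit false

namespace Pool.Agent.W340.PK.T3

open W841.PK Finset
open scoped Classical

/-- powers of `n` through `ℓ = n ^ (1 / 32)` -/
theorem exists_ell : ∃ n0 : ℕ, 2 ≤ n0 ∧ ∀ n ≥ n0, ∃ l : ℝ, 1 ≤ l ∧ (n : ℝ) = l ^ 32 ∧
    √(n : ℝ) = l ^ 16 ∧ (n : ℝ) ^ ((7 : ℝ) / 16) = l ^ 14 ∧ Real.log n ≤ l := by
  have h := (isLittleO_log_rpow_atTop (r := 1 / 32) (by norm_num)).bound (c := 1) one_pos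
  have h2 := tendsto_natCast_atTop_atTop (R := ℝ) |>.eventually h
  obtain ⟨n1, hn1⟩ := Filter.eventually_atTop.1 h2
  refine ⟨max n1 2, le_max_right _ _, fun n hn => ?_⟩
  have hn2 : 2 ≤ n := (le_max_right _ _).trans hn
  have hn0 : (1 : ℝ) ≤ n := by exact_mod_cast (by omega : 1 ≤ n)
  have hpos : (0 : ℝ) ≤ n := by linarith
  have e : ∀ k : ℕ, ((n : ℝ) ^ ((1 : ℝ) / 32)) ^ k = (n : ℝ) ^ ((k : ℝ) / 32) := fun k => by
    rw [← Real.rpow_natCast, ← Real.rpow_mul hpos]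
    congr 1; ring
  refine ⟨(n : ℝ) ^ ((1 : ℝ) / 32), Real.one_le_rpow hn0 (by norm_num), ?_, ?_, ?_, ?_⟩
  · rw [e]; norm_num
  · rw [e, Real.sqrt_eq_rpow]; norm_num
  · rw [e]; norm_num
  · have h3 := hn1 n ((le_max_left _ _).trans hn)
    rw [one_mul, Real.norm_of_nonneg (Real.log_nonneg hn0),
      Real.norm_of_nonneg (Real.rpow_nonneg hpos _)] at h3
    exact h3

theorem uu_le {n : ℕ} {l : ℝ} (hl : 1 ≤ l) (h1 : (n : ℝ) = l ^ 32) (h2 : √(n : ℝ) = l ^ 16) (b : Bool) :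
    0 ≤ uu b n ∧ uu b n ≤ l ^ 32 := by
  unfold uu
  cases b
  · simp [h1]; positivity
  · simp only [if_true, h2]
    exact ⟨by positivity, pow_le_pow_right₀ hl (by norm_num)⟩

/-- the bound for the sum of correlations -/
theorem M_le {n : ℕ} {l C : ℝ} (hC : 1 ≤ C) (hl : 1 ≤ l) (h1 : (n : ℝ) = l ^ 32)
    (h2 : √(n : ℝ) = l ^ 16) (hL : Real.log n ≤ l) (b : Bool) (x y : ℝ)
    (hx0 : 0 ≤ x) (hx : x ≤ n) (hy0 : 0 ≤ y) (hy : y ≤ uu b n) :
    4 * C * √(x * y * (x + y) * Real.log n) ≤ 6 * C * (if b then l ^ 41 else l ^ 49) := by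
  have hl0 : 0 < l := by linarith
  have hlog : 0 ≤ Real.log n := Real.log_natCast_nonneg n
  have hu := uu_le hl h1 h2 b
  have h3 : x * y * (x + y) * Real.log n ≤ l ^ 32 * uu b n * (l ^ 32 + l ^ 32) * l := by
    rw [h1] at hx
    have := hu.1
    gcongr
    exact hy.trans hu.2
  have h4 : l ^ 32 * uu b n * (l ^ 32 + l ^ 32) * l ≤ (3 / 2 * (if b then l ^ 41 else l ^ 49)) ^ 2 := by
    unfold uu
    cases b
    · simp only [Bool.false_eq_true, if_false, h1]
      have h5 : l ^ 97 ≤ l ^ 98 := pow_le_pow_right₀ hl (by norm_num)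
      have h6 : 0 < l ^ 98 := by positivity
      nlinarith
    · simp only [if_true, h2]
      have h5 : l ^ 81 ≤ l ^ 82 := pow_le_pow_right₀ hl (by norm_num)
      have h6 : 0 < l ^ 82 := by positivity
      nlinarith
  have h7 : √(x * y * (x + y) * Real.log n) ≤ 3 / 2 * (if b then l ^ 41 else l ^ 49) := by
    apply Real.sqrt_le_iff.2 ⟨by cases b <;> simp <;> positivity, h3.trans h4⟩
  have h8 : 0 ≤ 4 * C := by linarith
  nlinarith [mul_le_mul_of_nonneg_left h7 h8]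

/-- the final inequality -/
theorem final {n : ℕ} {l C V0 K γ X sc2 : ℝ} (hC : 1 ≤ C) (hV : 1 ≤ V0) (hK : 0 ≤ K) (hγ : 0 ≤ γ)
    (hX : 0 ≤ X) (hl : 1 ≤ l) (h1 : (n : ℝ) = l ^ 32) (h2 : √(n : ℝ) = l ^ 16)
    (h3 : (n : ℝ) ^ ((7 : ℝ) / 16) = l ^ 14) (hL : Real.log n ≤ l) (b : Bool)
    (hs : if b then sc2 ≤ (γ * l ^ 16) * (γ * (6 * C * l ^ 41)) else
      sc2 ≤ 400 * C ^ 2 * (n : ℝ) ^ 2 * Real.log n ^ 2 * γ ^ 2) :
    V0 / n * (X * (γ * (6 * C * (if b then l ^ 41 else l ^ 49))) +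
      √(K * (n : ℝ) ^ 2 * Real.log n ^ 2) * √sc2) ≤
    (6 * C * V0 + 20 * C * V0 * √K) *
      (γ * uu b n * (n : ℝ) ^ ((7 : ℝ) / 16) * (1 + X / √(n : ℝ))) := by
  have hl0 : 0 < l := by linarith
  have hlog : 0 ≤ Real.log n := Real.log_natCast_nonneg n
  have hn : (0 : ℝ) < n := by rw [h1]; positivity
  have e1 : √(K * (n : ℝ) ^ 2 * Real.log n ^ 2) = √K * (n * Real.log n) := by
    rw [mul_assoc, ← mul_pow, Real.sqrt_mul hK, Real.sqrt_sq (by positivity)]
  have hK' := Real.sqrt_nonneg K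
  rw [e1, h3, h2]
  have e2 : V0 / n * (X * (γ * (6 * C * (if b then l ^ 41 else l ^ 49))) +
      √K * (n * Real.log n) * √sc2) =
      6 * C * V0 * γ * X * ((if b then l ^ 41 else l ^ 49) / n) + V0 * √K * Real.log n * √sc2 := by
    field_simp
  rw [e2]
  unfold uu
  cases b
  · simp only [Bool.false_eq_true, if_false] at hs ⊢
    have e3 : √sc2 ≤ 20 * C * n * Real.log n * γ := by
      apply Real.sqrt_le_iff.2 ⟨by positivity, hs.trans (le_of_eq (by ring))⟩
    have e4 : V0 * √K * Real.log n * √sc2 ≤ 20 * C * V0 * √K * γ * l ^ 46 := by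
      calc V0 * √K * Real.log n * √sc2 ≤ V0 * √K * l * (20 * C * n * l * γ) := by
            gcongr
            exact e3.trans (by gcongr)
        _ = 20 * C * V0 * √K * γ * l ^ 34 := by rw [h1]; ring
        _ ≤ _ := by gcongr; norm_num
    have e5 : l ^ 49 / (n : ℝ) = l ^ 17 := by rw [h1]; field_simp
    have e6 : 6 * C * V0 * γ * X * l ^ 17 ≤ 6 * C * V0 * γ * X * l ^ 30 := by
      gcongr
      norm_num
    have e7 : γ * (n : ℝ) * l ^ 14 * (1 + X / l ^ 16) = γ * l ^ 46 + γ * X * l ^ 30 := by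
      rw [h1]; field_simp
    rw [e5, e7]
    have e8 : 0 ≤ 6 * C * V0 * (γ * l ^ 46) := by positivity
    have e9 : 0 ≤ 20 * C * V0 * √K * (γ * X * l ^ 30) := by positivity
    nlinarith
  · simp only [if_true] at hs ⊢
    have e3 : √sc2 ≤ 6 * C * γ * l ^ 29 := by
      apply Real.sqrt_le_iff.2 ⟨by positivity, hs.trans ?_⟩
      have h5 : l ^ 57 ≤ l ^ 58 := pow_le_pow_right₀ hl (by norm_num)
      have h6 : C ≤ C ^ 2 := by nlinarith
      calc γ * l ^ 16 * (γ * (6 * C * l ^ 41)) = 6 * γ ^ 2 * C * l ^ 57 := by ring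
        _ ≤ 6 * γ ^ 2 * C ^ 2 * l ^ 58 := by gcongr
        _ ≤ 36 * γ ^ 2 * C ^ 2 * l ^ 58 := by gcongr; norm_num
        _ = _ := by ring
    have e4 : V0 * √K * Real.log n * √sc2 ≤ 20 * C * V0 * √K * γ * l ^ 30 := by
      calc V0 * √K * Real.log n * √sc2 ≤ V0 * √K * l * (6 * C * γ * l ^ 29) := by gcongr
        _ = 6 * C * V0 * √K * γ * l ^ 30 := by ring
        _ ≤ _ := by gcongr; norm_num
    have e5 : l ^ 41 / (n : ℝ) = l ^ 9 := by rw [h1]; field_simp
    have e6 : 6 * C * V0 * γ * X * l ^ 9 ≤ 6 * C * V0 * γ * X * l ^ 14 := by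
      gcongr
      norm_num
    have e7 : γ * l ^ 16 * l ^ 14 * (1 + X / l ^ 16) = γ * l ^ 30 + γ * X * l ^ 14 := by
      field_simp
    rw [e5, h2, e7]
    have e8 : 0 ≤ 6 * C * V0 * (γ * l ^ 30) := by positivity
    have e9 : 0 ≤ 20 * C * V0 * √K * (γ * X * l ^ 14) := by positivity
    nlinarith

theorem t3 (_hb : S_Basic) (hc : S_PRC) (hd : S_DYcnt) : S_T3 := by
  intro V0 C hV hC
  obtain ⟨K0, n1, hcnt⟩ := hd V0 C hV hC
  obtain ⟨n2, hn2, hell⟩ := exists_ell
  refine ⟨6 * C * V0 + 20 * C * V0 * √|K0|, max n1 n2, ?_⟩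
  intro n hn S ρ t G hS hρ hPR hAct b γ g hγ hg hsup
  obtain ⟨l, hl, h1, h2, h3, hL⟩ := hell n ((le_max_right _ _).trans hn)
  have hn2' : 2 ≤ n := hn2.trans ((le_max_right _ _).trans hn)
  obtain ⟨-, hDl, -, -, -, -, hX2, -⟩ := hcnt n ((le_max_left _ _).trans hn) S ρ t G hS hρ hPR hAct
  obtain ⟨-, hPRC2, hPRC3⟩ := hc n C G hn2' hC hPR
  have hl0 : 0 < l := by linarith
  have hn0 : (0 : ℝ) < n := by rw [h1]; positivity
  set w := ww S ρ t G with hw
  set X := Xt S ρ t G w with hX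
  set Supp : Finset (Fin n) := ((RR S ρ t G).erase w).filter (fun a => ¬ (if b then a ∉ S else a ∈ S))
    with hSupp
  -- the sums
  have hcsum : ∀ w2, (∑ a ∈ ((RR S ρ t G).erase w).erase w2, g a * ee G a w * ee G a w2) =
      ∑ a ∈ Supp, g a * ee G a w * ee G w2 a := by
    intro w2
    have e1 : ∑ a ∈ ((RR S ρ t G).erase w).erase w2, g a * ee G a w * ee G a w2 =
        ∑ a ∈ (RR S ρ t G).erase w, g a * ee G a w * ee G a w2 := by
      apply sum_erase
      rw [ee_self, mul_zero]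
    rw [e1, hSupp, sum_filter]
    refine sum_congr rfl fun a _ => ?_
    rw [ee_comm G w2 a]
    by_cases ha : (if b then a ∉ S else a ∈ S)
    · rw [if_neg (not_not.2 ha), hsup a ha, zero_mul, zero_mul]
    · rw [if_pos ha]
  set cc : Fin n → ℝ := fun w2 => ∑ a ∈ Supp, g a * ee G a w * ee G w2 a with hcc
  have hSuppcard : (Supp.card : ℝ) ≤ uu b n := by
    unfold uu
    cases b
    · simp only [Bool.false_eq_true, if_false]
      exact_mod_cast (card_le_univ Supp).trans (by simp)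
    · simp only [if_true]
      have h4 : Supp ⊆ S := by
        intro a ha
        rw [hSupp, mem_filter] at ha
        simpa using ha.2
      have h5 : (Supp.card : ℝ) ≤ (Nat.sqrt n : ℝ) := by rw [← hS]; exact_mod_cast card_le_card h4
      exact h5.trans Real.nat_sqrt_le_real_sqrt
  -- the case `γ = 0`
  rcases hγ.eq_or_lt with hγ0 | hγ0
  · have hg0 : ∀ a, g a = 0 := fun a => by
      have := hg a; rw [← hγ0] at this; exact abs_eq_zero.1 (le_antisymm this (abs_nonneg _))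
    have : T3g S ρ t G g = 0 := by
      exact sum_eq_zero fun w2 _ => by
        rw [sum_eq_zero (fun a _ => by rw [hg0, zero_mul, zero_mul]), mul_zero]
    rw [this, abs_zero]
    unfold Bd
    rw [← hγ0, zero_mul, zero_mul, zero_mul, mul_zero]
  set β : Fin n → ℝ := fun a => g a * ee G a w / γ with hβ
  have hβ1 : ∀ a, |β a| ≤ 1 := fun a => by
    rw [hβ]; simp only [abs_div, abs_mul, abs_of_pos hγ0]
    rw [div_le_one hγ0]
    have := mul_le_mul (hg a) (abs_ee_le G a w) (abs_nonneg _) hγ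
    linarith
  have hccβ : ∀ w2, cc w2 = γ * ∑ a ∈ Supp, β a * ee G w2 a := fun w2 => by
    simp only [hcc, hβ]
    rw [mul_sum]
    refine sum_congr rfl fun a _ => ?_
    field_simp
  -- sum of |c|
  have hMb := M_le hC hl h1 h2 hL b ((NN S ρ t G).card : ℝ) (Supp.card : ℝ) (Nat.cast_nonneg _)
    (by have := card_le_univ (NN S ρ t G); rw [Fintype.card_fin] at this; exact_mod_cast this)
    (Nat.cast_nonneg _) hSuppcard
  have hsc : ∑ w2 ∈ NN S ρ t G, |cc w2| ≤ γ * (6 * C * (if b then l ^ 41 else l ^ 49)) := by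
    have h4 := hPRC2 β (NN S ρ t G) Supp hβ1
    calc ∑ w2 ∈ NN S ρ t G, |cc w2| = γ * ∑ w2 ∈ NN S ρ t G, |∑ a ∈ Supp, β a * ee G w2 a| := by
          rw [mul_sum]
          refine sum_congr rfl fun w2 _ => ?_
          rw [hccβ, abs_mul, abs_of_pos hγ0]
      _ ≤ _ := mul_le_mul_of_nonneg_left (h4.trans hMb) hγ
  -- sum of c²
  have hsc2 : if b then ∑ w2 ∈ NN S ρ t G, |cc w2| ^ 2 ≤ (γ * l ^ 16) * (γ * (6 * C * l ^ 41)) else
      ∑ w2 ∈ NN S ρ t G, |cc w2| ^ 2 ≤ 400 * C ^ 2 * (n : ℝ) ^ 2 * Real.log n ^ 2 * γ ^ 2 := by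
    cases b
    · simp only [Bool.false_eq_true, if_false]
      have h4 := hPRC3 β Supp hβ1
      calc ∑ w2 ∈ NN S ρ t G, |cc w2| ^ 2 ≤ ∑ w2, |cc w2| ^ 2 :=
            sum_le_sum_of_subset_of_nonneg (subset_univ _) fun _ _ _ => by positivity
        _ = (∑ w2, (∑ a ∈ Supp, β a * ee G w2 a) ^ 2) * γ ^ 2 := by
            rw [sum_mul]
            refine sum_congr rfl fun w2 _ => ?_
            rw [hccβ, sq_abs]; ring
        _ ≤ _ := mul_le_mul_of_nonneg_right h4 (by positivity)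
    · simp only [if_true] at hsc hSuppcard ⊢
      have h4 : ∀ w2, |cc w2| ≤ γ * l ^ 16 := fun w2 => by
        calc |cc w2| ≤ ∑ a ∈ Supp, |g a * ee G a w * ee G w2 a| := abs_sum_le_sum_abs _ _
          _ ≤ ∑ _ ∈ Supp, γ := by
              refine sum_le_sum fun a _ => ?_
              rw [abs_mul, abs_mul]
              have h5 := mul_le_mul (hg a) (abs_ee_le G a w) (abs_nonneg _) hγ
              have h6 := mul_le_mul h5 (abs_ee_le G w2 a) (abs_nonneg _) (by linarith)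
              linarith
          _ = Supp.card * γ := by rw [sum_const, nsmul_eq_mul]
          _ ≤ _ := by
              unfold uu at hSuppcard
              simp only [if_true, h2] at hSuppcard
              nlinarith
      calc ∑ w2 ∈ NN S ρ t G, |cc w2| ^ 2 ≤ ∑ w2 ∈ NN S ρ t G, (γ * l ^ 16) * |cc w2| := by
            refine sum_le_sum fun w2 _ => ?_
            rw [sq]
            exact mul_le_mul_of_nonneg_right (h4 w2) (abs_nonneg _)
        _ = (γ * l ^ 16) * ∑ w2 ∈ NN S ρ t G, |cc w2| := by rw [mul_sum]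
        _ ≤ _ := mul_le_mul_of_nonneg_left hsc (by positivity)
  -- the bound for `T3g`
  have hRpos : (n : ℝ) / V0 ≤ ((RR S ρ t G).card : ℝ) := by
    refine hAct.2.trans ?_
    unfold rr
    exact_mod_cast card_le_card (NN_sub S ρ t G)
  have hV0 : (0 : ℝ) < V0 := by linarith
  have hR0 : (0 : ℝ) < ((RR S ρ t G).card : ℝ) := lt_of_lt_of_le (by positivity) hRpos
  have hT : |T3g S ρ t G g| ≤ V0 / n * (|X| * ∑ w2 ∈ NN S ρ t G, |cc w2| +
      ∑ w2 ∈ NN S ρ t G, |Xt S ρ t G w2| * |cc w2|) := by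
    have h4 : ∀ w2 ∈ good2 S ρ t G, |qh S ρ t G w2 / 2 *
        ∑ a ∈ ((RR S ρ t G).erase w).erase w2, g a * ee G a w * ee G a w2| ≤
        V0 / n * ((|X| + |Xt S ρ t G w2|) * |cc w2|) := by
      intro w2 hw2
      rw [hcsum, abs_mul]
      have h5 : |qh S ρ t G w2 / 2| ≤ V0 / n * (|X| + |Xt S ρ t G w2|) := by
        have hD := hDl w2 hw2
        have hD0 : 0 < Dl S ρ t G w2 := lt_of_lt_of_le (by linarith) hD
        unfold qh
        rw [abs_div, abs_div, abs_of_pos (by positivity : 0 < 2 * Dl S ρ t G w2), abs_two,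
          div_div, div_le_iff₀ (by positivity)]
        have h6 : |X - Xt S ρ t G w2| ≤ |X| + |Xt S ρ t G w2| := by
          have := abs_add_le X (-Xt S ρ t G w2)
          rwa [abs_neg, ← sub_eq_add_neg] at this
        have h7 : 1 ≤ V0 / n * (2 * Dl S ρ t G w2 * 2) := by
          rw [div_le_iff₀ hV0] at hRpos
          rw [div_mul_eq_mul_div, le_div_iff₀ hn0]
          nlinarith
        calc |X - Xt S ρ t G w2| ≤ (|X| + |Xt S ρ t G w2|) * 1 := by rw [mul_one]; exact h6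
          _ ≤ (|X| + |Xt S ρ t G w2|) * (V0 / n * (2 * Dl S ρ t G w2 * 2)) :=
              mul_le_mul_of_nonneg_left h7 (by positivity)
          _ = _ := by ring
      calc |qh S ρ t G w2 / 2| * |∑ a ∈ Supp, g a * ee G a w * ee G w2 a|
          ≤ (V0 / n * (|X| + |Xt S ρ t G w2|)) * |cc w2| :=
            mul_le_mul_of_nonneg_right h5 (abs_nonneg _)
        _ = _ := by ring
    have hsubg : good2 S ρ t G ⊆ NN S ρ t G := (filter_subset _ _).trans (erase_subset _ _)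
    calc |T3g S ρ t G g| ≤ ∑ w2 ∈ good2 S ρ t G, |qh S ρ t G w2 / 2 *
        ∑ a ∈ ((RR S ρ t G).erase w).erase w2, g a * ee G a w * ee G a w2| :=
          abs_sum_le_sum_abs _ _
      _ ≤ ∑ w2 ∈ good2 S ρ t G, V0 / n * ((|X| + |Xt S ρ t G w2|) * |cc w2|) := sum_le_sum h4
      _ ≤ ∑ w2 ∈ NN S ρ t G, V0 / n * ((|X| + |Xt S ρ t G w2|) * |cc w2|) :=
          sum_le_sum_of_subset_of_nonneg hsubg fun _ _ _ => by positivity
      _ = _ := by
          rw [← mul_sum, mul_sum (s := NN S ρ t G) (f := fun w2 => |cc w2|), ← sum_add_distrib]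
          congr 1
          refine sum_congr rfl fun w2 _ => ?_
          ring
  have hCS := Real.sum_mul_le_sqrt_mul_sqrt (NN S ρ t G) (fun w2 => |Xt S ρ t G w2|)
    (fun w2 => |cc w2|)
  have hXX : ∑ w2 ∈ NN S ρ t G, |Xt S ρ t G w2| ^ 2 ≤ |K0| * (n : ℝ) ^ 2 * Real.log n ^ 2 := by
    simp only [sq_abs]
    refine hX2.trans ?_
    gcongr
    exact le_abs_self _
  have hfin := final (V0 := V0) (K := |K0|) (X := |X|) hC hV (abs_nonneg _) hγ (abs_nonneg _) hl
    h1 h2 h3 hL b hsc2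
  refine hT.trans (le_trans ?_ hfin)
  apply mul_le_mul_of_nonneg_left _ (by positivity)
  apply add_le_add
  · exact mul_le_mul_of_nonneg_left hsc (abs_nonneg _)
  · exact hCS.trans (mul_le_mul_of_nonneg_right (Real.sqrt_le_sqrt hXX) (Real.sqrt_nonneg _))

end Pool.Agent.W340.PK.T3
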